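import Pool.Agent.H95.ND.Targets

/-!
Module ASG of the board pd (MP_57ddd5_pr): sum over assignments of labels to scales.
-/

open MeasureTheory ProbabilityTheory
open scoped ENNReal

namespace Pool.Agent.H2.PD

open Pool.Agent.H99.NS Pool.Agent.H22.LPP Pool.Agent.H95.INS Pool.Agent.H76.ND
open Pool.Agent.H95.ND
open Pool.Agent.H97.NF (PEnv eA eB PN)

theorem ds_comm' (i j : ℕ) : ds i j = ds j i := by
  unfold ds
  omega

theorem sum_ds (φ : ℕ → ℝ) (hφ : ∀ n, 0 ≤ φ n) (i : ℕ) : ∀ (d : ℕ) (J : Finset ℕ),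
    (∀ j ∈ J, ds j i ≤ d) →
    ∑ j ∈ J, φ (ds j i) ≤ φ 0 + 2 * ∑ n ∈ Finset.range d, φ (n + 1) := by
  intro d
  induction d with
  | zero =>
    intro J hJ
    have hsub : J ⊆ {i} := by
      intro j hj
      have := hJ j hj
      unfold ds at this
      rw [Finset.mem_singleton]
      omega
    calc ∑ j ∈ J, φ (ds j i) ≤ ∑ j ∈ {i}, φ (ds j i) :=
          Finset.sum_le_sum_of_subset_of_nonneg hsub fun _ _ _ => hφ _
      _ = φ 0 := by
          rw [Finset.sum_singleton]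
          congr 1
          unfold ds
          omega
      _ ≤ _ := by simp
  | succ d ih =>
    intro J hJ
    rw [← Finset.sum_filter_add_sum_filter_not J (fun j => ds j i ≤ d)]
    have h1 := ih (J.filter (fun j => ds j i ≤ d)) (fun j hj => (Finset.mem_filter.1 hj).2)
    have hsub : J.filter (fun j => ¬ ds j i ≤ d) ⊆ {i - (d + 1), i + (d + 1)} := by
      intro j hj
      rw [Finset.mem_filter] at hj
      have h2 := hJ j hj.1
      have h3 := hj.2
      unfold ds at h2 h3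
      rw [Finset.mem_insert, Finset.mem_singleton]
      omega
    have h2 : ∑ j ∈ J.filter (fun j => ¬ ds j i ≤ d), φ (ds j i) ≤ 2 * φ (d + 1) := by
      have e1 : ∑ j ∈ J.filter (fun j => ¬ ds j i ≤ d), φ (ds j i) =
          ∑ j ∈ J.filter (fun j => ¬ ds j i ≤ d), φ (d + 1) := by
        refine Finset.sum_congr rfl fun j hj => ?_
        rw [Finset.mem_filter] at hj
        have h2 := hJ j hj.1
        have h3 := hj.2
        congr 1
        omega
      rw [e1, Finset.sum_const, nsmul_eq_mul]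
      have hc : (J.filter (fun j => ¬ ds j i ≤ d)).card ≤ 2 :=
        (Finset.card_le_card hsub).trans Finset.card_le_two
      have hc' : (((J.filter (fun j => ¬ ds j i ≤ d)).card : ℕ) : ℝ) ≤ 2 := by exact_mod_cast hc
      exact mul_le_mul_of_nonneg_right hc' (hφ _)
    rw [Finset.sum_range_succ]
    linarith

theorem sum_wt (M : ℝ) (hM : 0 ≤ M) (i d : ℕ) (J : Finset ℕ) (hJ : ∀ j ∈ J, ds j i ≤ d) :
    ∑ j ∈ J, (M + ds j i) ≤ (2 * d + 1) * M + d * (d + 1) := by
  have h1 := sum_ds (fun n => M + n) (fun n => by positivity) i d J hJ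
  refine h1.trans (le_of_eq ?_)
  have : ∀ d : ℕ, M + ((0 : ℕ) : ℝ) + 2 * ∑ n ∈ Finset.range d, (M + ((n + 1 : ℕ) : ℝ)) =
      (2 * d + 1) * M + d * (d + 1) := by
    intro d
    induction d with
    | zero => simp
    | succ d ih =>
      rw [Finset.sum_range_succ, mul_add, ← add_assoc, ih]
      push_cast
      ring
  exact this d

theorem sum_half (i : ℕ) (J : Finset ℕ) : ∑ j ∈ J, Real.exp (-(ds j i : ℝ)) ≤ 3 := by
  have hh : Real.exp (-1) ≤ 1 / 2 := by
    have h1 : (2 : ℝ) ≤ Real.exp 1 := by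
      have := Real.add_one_le_exp (1 : ℝ)
      linarith
    rw [Real.exp_neg]
    rw [inv_eq_one_div]
    exact one_div_le_one_div_of_le (by norm_num) h1
  have h1 : ∀ n : ℕ, Real.exp (-(n : ℝ)) ≤ (1 / 2) ^ n := by
    intro n
    have e : Real.exp (-(n : ℝ)) = Real.exp (-1) ^ n := by
      rw [← Real.exp_nat_mul]
      congr 1
      ring
    rw [e]
    exact pow_le_pow_left₀ (Real.exp_pos _).le hh n
  have h2 : ∑ j ∈ J, Real.exp (-(ds j i : ℝ)) ≤ ∑ j ∈ J, (1 / 2 : ℝ) ^ ds j i :=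
    Finset.sum_le_sum fun j _ => h1 _
  have h3 := sum_ds (fun n => (1 / 2 : ℝ) ^ n) (fun n => by positivity) i
    (J.sup fun j => ds j i) J (fun j hj => Finset.le_sup (f := fun j => ds j i) hj)
  refine h2.trans (h3.trans ?_)
  have : ∀ d : ℕ, (1 / 2 : ℝ) ^ 0 + 2 * ∑ n ∈ Finset.range d, (1 / 2 : ℝ) ^ (n + 1) =
      3 - 2 * (1 / 2) ^ d := by
    intro d
    induction d with
    | zero => norm_num
    | succ d ih =>
      rw [Finset.sum_range_succ, mul_add, ← add_assoc, ih]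
      ring
  have h4 := this (J.sup fun j => ds j i)
  rw [h4]
  have : (0 : ℝ) ≤ 2 * (1 / 2) ^ (J.sup fun j => ds j i) := by positivity
  linarith

theorem asg_fix {Ω : Type} [MeasurableSpace Ω] (μ : Measure Ω) (S Lb : Finset ℕ)
    (V : ℕ → ℕ → Set Ω) (M : ℝ) (hM : 0 ≤ M)
    (H1 : ∀ j ∈ S, ∀ i ∈ Lb, μ (V j i) ≤
      ENNReal.ofReal (Real.exp (-((2 * ds j i + 1) * M + ds j i * (ds j i + 1)))))
    (H2 : ∀ f : ℕ → ℕ, (∀ j ∈ S, f j ∈ Lb) → μ (⋂ j ∈ S, V j (f j)) ≤
      ∏ i ∈ S.image f, μ (⋂ j ∈ S.filter (fun j => f j = i), V j i))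
    (f : ℕ → ℕ) (hf : ∀ j ∈ S, f j ∈ Lb) :
    μ (⋂ j ∈ S, V j (f j)) ≤ ∏ j ∈ S, ENNReal.ofReal (Real.exp (-(M + ds j (f j)))) := by
  refine (H2 f hf).trans ?_
  rw [← Finset.prod_fiberwise_of_maps_to (g := f) (t := S.image f)
    (fun x hx => Finset.mem_image_of_mem f hx)]
  refine Finset.prod_le_prod' fun i hi => ?_
  obtain ⟨j0, hj0, hji⟩ := Finset.mem_image.1 hi
  have hne : (S.filter (fun j => f j = i)).Nonempty := ⟨j0, Finset.mem_filter.2 ⟨hj0, hji⟩⟩
  obtain ⟨js, hjs, hmax⟩ := Finset.exists_max_image (S.filter (fun j => f j = i))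
    (fun j => ds j i) hne
  have hjsS := (Finset.mem_filter.1 hjs).1
  have hiL : i ∈ Lb := by
    rw [← hji]
    exact hf j0 hj0
  have h1 : μ (⋂ j ∈ S.filter (fun j => f j = i), V j i) ≤ μ (V js i) :=
    measure_mono (Set.biInter_subset_of_mem hjs)
  refine h1.trans ((H1 js hjsS i hiL).trans ?_)
  have h2 : ∏ j ∈ S.filter (fun j => f j = i), ENNReal.ofReal (Real.exp (-(M + ds j (f j)))) =
      ENNReal.ofReal (Real.exp (-(∑ j ∈ S.filter (fun j => f j = i), (M + ds j i)))) := by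
    rw [← Finset.sum_neg_distrib, Real.exp_sum, ENNReal.ofReal_prod_of_nonneg
      (fun _ _ => (Real.exp_pos _).le)]
    refine Finset.prod_congr rfl fun j hj => ?_
    rw [(Finset.mem_filter.1 hj).2]
  rw [h2]
  apply ENNReal.ofReal_le_ofReal
  apply Real.exp_le_exp.2
  have h3 := sum_wt M hM i (ds js i) (S.filter (fun j => f j = i)) (fun j hj => hmax j hj)
  linarith

theorem pf_ASG : T_ASG := by
  intro Ω _ μ S Lb V M hM H1 H2
  classical
  obtain ⟨ext, hext⟩ : ∃ ext : (∀ a ∈ S, ℕ) → ℕ → ℕ,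
      ∀ (p : ∀ a ∈ S, ℕ) (j : ℕ) (hj : j ∈ S), ext p j = p j hj :=
    ⟨fun p j => if h : j ∈ S then p j h else 0, fun p j hj => by simp [hj]⟩
  have hsub : {ω | ∀ j ∈ S, ∃ i ∈ Lb, ω ∈ V j i} ⊆
      ⋃ p ∈ S.pi (fun _ => Lb), ⋂ j ∈ S, V j (ext p j) := by
    intro ω hω
    choose p hp1 hp2 using hω
    refine Set.mem_iUnion₂.2 ⟨p, Finset.mem_pi.2 hp1, ?_⟩
    refine Set.mem_iInter₂.2 fun j hj => ?_
    rw [hext p j hj]
    exact hp2 j hj
  refine (measure_mono hsub).trans ((measure_biUnion_finset_le _ _).trans ?_)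
  have h1 : ∀ p ∈ S.pi (fun _ => Lb), μ (⋂ j ∈ S, V j (ext p j)) ≤
      ∏ x ∈ S.attach, ENNReal.ofReal (Real.exp (-(M + ds x.1 (p x.1 x.2)))) := by
    intro p hp
    have hp' := Finset.mem_pi.1 hp
    refine (asg_fix μ S Lb V M hM H1 H2 (ext p) (fun j hj => by
      rw [hext p j hj]; exact hp' j hj)).trans (le_of_eq ?_)
    rw [← Finset.prod_attach S]
    refine Finset.prod_congr rfl fun x _ => ?_
    rw [hext p x.1 x.2]
  refine (Finset.sum_le_sum h1).trans ?_
  rw [← Finset.prod_sum S (fun _ => Lb)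
    (fun j i => ENNReal.ofReal (Real.exp (-(M + ds j i))))]
  have h2 : ∀ j ∈ S, ∑ i ∈ Lb, ENNReal.ofReal (Real.exp (-(M + ds j i))) ≤
      ENNReal.ofReal (3 * Real.exp (-M)) := by
    intro j _
    rw [← ENNReal.ofReal_sum_of_nonneg (fun _ _ => (Real.exp_pos _).le)]
    apply ENNReal.ofReal_le_ofReal
    have e : ∑ i ∈ Lb, Real.exp (-(M + ds j i)) =
        Real.exp (-M) * ∑ i ∈ Lb, Real.exp (-(ds i j : ℝ)) := by
      rw [Finset.mul_sum]
      refine Finset.sum_congr rfl fun i _ => ?_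
      rw [← Real.exp_add, ds_comm' i j]
      congr 1
      ring
    rw [e, mul_comm]
    exact mul_le_mul_of_nonneg_right (sum_half j Lb) (Real.exp_pos _).le
  refine (Finset.prod_le_prod' h2).trans (le_of_eq ?_)
  rw [Finset.prod_const, ENNReal.ofReal_pow (by positivity)]

end Pool.Agent.H2.PD
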