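import Pool.Agent.H95.ND.Targets

/-!
Module ASR of the board pd (MP_57ddd5_pr): the tail beats the combinatorics of the assignments.
-/

open MeasureTheory ProbabilityTheory
open scoped ENNReal

namespace Pool.Agent.H2.PD

open Pool.Agent.H99.NS Pool.Agent.H22.LPP Pool.Agent.H95.INS Pool.Agent.H76.ND
open Pool.Agent.H95.ND
open Pool.Agent.H97.NF (PEnv eA eB PN)

theorem str_rpow (K0 s : ℝ) (d : ℕ) (hK : 0 ≤ K0) :
    (str K0 d) ^ s = K0 ^ s * Real.exp (d * (s * Real.log (101 / 100))) := by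
  unfold str
  rw [Real.mul_rpow hK (by positivity), Real.rpow_def_of_pos (by positivity : (0:ℝ) <
    (101 / 100) ^ d), Real.log_pow]
  congr 2
  ring

theorem asr_real (c lam LC M B : ℝ) (d : ℝ) (hc : 0 < c) (hl : 0 < lam) (hM : 0 ≤ M)
    (hLC : 0 ≤ LC) (hd : 0 ≤ d)
    (hB : (LC + M) / c + (2 * M + 1) / (c * lam) + 2 / (c * lam ^ 2) ≤ B) :
    LC + ((2 * d + 1) * M + d * (d + 1)) ≤ c * (B * Real.exp (d * lam)) := by
  have h1 : 1 + d * lam + (d * lam) ^ 2 / 2 ≤ Real.exp (d * lam) :=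
    Real.quadratic_le_exp_of_nonneg (by positivity)
  have hB0 : 0 ≤ (LC + M) / c + (2 * M + 1) / (c * lam) + 2 / (c * lam ^ 2) := by positivity
  have h2 : ((LC + M) / c + (2 * M + 1) / (c * lam) + 2 / (c * lam ^ 2)) *
      (1 + d * lam + (d * lam) ^ 2 / 2) ≤ B * Real.exp (d * lam) :=
    mul_le_mul hB h1 (by positivity) (hB0.trans hB)
  have h3 : LC + ((2 * d + 1) * M + d * (d + 1)) ≤
      c * (((LC + M) / c + (2 * M + 1) / (c * lam) + 2 / (c * lam ^ 2)) *
      (1 + d * lam + (d * lam) ^ 2 / 2)) := by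
    have e1 : c * (((LC + M) / c + (2 * M + 1) / (c * lam) + 2 / (c * lam ^ 2)) *
      (1 + d * lam + (d * lam) ^ 2 / 2)) =
      ((LC + M) + (2 * M + 1) / lam + 2 / lam ^ 2) * (1 + d * lam + (d * lam) ^ 2 / 2) := by
      field_simp
    rw [e1]
    have e2 : ((LC + M) + (2 * M + 1) / lam + 2 / lam ^ 2) * (1 + d * lam + (d * lam) ^ 2 / 2) =
        (LC + M) + (2 * M + 1) * d + d ^ 2 + ((2 * M + 1) / lam + 2 / lam ^ 2 +
          (LC + M) * (d * lam + (d * lam) ^ 2 / 2) + (2 * M + 1) * (d ^ 2 * lam / 2) +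
          2 * d / lam) := by
      field_simp
      ring
    rw [e2]
    have e3 : 0 ≤ (2 * M + 1) / lam + 2 / lam ^ 2 +
          (LC + M) * (d * lam + (d * lam) ^ 2 / 2) + (2 * M + 1) * (d ^ 2 * lam / 2) +
          2 * d / lam := by positivity
    nlinarith
  exact h3.trans (mul_le_mul_of_nonneg_left h2 hc.le)

theorem pf_ASR : T_ASR := by
  intro C c s M hC hc hs hM
  have hlog : 0 < Real.log (101 / 100) := Real.log_pos (by norm_num)
  obtain ⟨lam, hlam⟩ : ∃ lam, lam = s * Real.log (101 / 100) := ⟨_, rfl⟩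
  have hl : 0 < lam := by rw [hlam]; positivity
  obtain ⟨B, hB⟩ : ∃ B, B = (|Real.log C| + M) / c + (2 * M + 1) / (c * lam) +
    2 / (c * lam ^ 2) := ⟨_, rfl⟩
  have hB0 : 0 ≤ B := by rw [hB]; positivity
  refine ⟨max 1 (B ^ (1 / s)), le_max_left _ _, ?_⟩
  intro K0 d hK
  have hK1 : 1 ≤ K0 := (le_max_left _ _).trans hK
  have hK2 : B ^ (1 / s) ≤ K0 := (le_max_right _ _).trans hK
  have hK3 : B ≤ K0 ^ s := by
    calc B = (B ^ (1 / s)) ^ s := by
          rw [← Real.rpow_mul hB0, one_div, inv_mul_cancel₀ hs.ne', Real.rpow_one]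
      _ ≤ K0 ^ s := Real.rpow_le_rpow (by positivity) hK2 hs.le
  unfold tl
  apply ENNReal.ofReal_le_ofReal
  rw [str_rpow K0 s d (by linarith), ← hlam]
  have h1 := asr_real c lam |Real.log C| M (K0 ^ s) d hc hl hM (abs_nonneg _)
    (Nat.cast_nonneg d) (hB ▸ hK3)
  have h2 : C = Real.exp (Real.log C) := (Real.exp_log hC).symm
  calc C * Real.exp (-(c * (K0 ^ s * Real.exp (d * lam))))
      = Real.exp (Real.log C + -(c * (K0 ^ s * Real.exp (d * lam)))) := by
        rw [Real.exp_add, Real.exp_log hC]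
    _ ≤ Real.exp (-((2 * d + 1) * M + d * (d + 1))) := by
        apply Real.exp_le_exp.2
        have := le_abs_self (Real.log C)
        linarith

end Pool.Agent.H2.PD
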