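import Pool.Agent.H95.ND.Targets

/-!
Module GSM of the board pd (MP_57ddd5_pr): summation of a conditional bound over the windows.
-/

open MeasureTheory ProbabilityTheory
open scoped ENNReal

namespace Pool.Agent.H2.PD

open Pool.Agent.H99.NS Pool.Agent.H22.LPP Pool.Agent.H95.INS Pool.Agent.H76.ND
open Pool.Agent.H95.ND
open Pool.Agent.H97.NF (PEnv eA eB PN)

theorem pf_GSM (h1 : T_FIB) (h2 : T_GPR) (h3 : T_CNT) : T_GSM := by
  intro hB c a1 k o e j p₀ β ρ Ev W hp hp' hA hak hoe hρ hEv hb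
  have hterm : ∀ w ∈ W, PN c.q (ρ w) {E | eA E ∈ Gp c k o e (zc j a1 w) p₀ ∧ E ∈ Ev w} ≤
      β * (PE c.q {ω | |Lam ω o e (zc j a1 w).1 - (zc j a1 w).2| < c.A * 16 ^ k} * p₀⁻¹) := by
    intro w _
    obtain ⟨g1, g2, g3⟩ := h2 hB c k o e (zc j a1 w) p₀ hoe
    refine (h1 c.q (ρ w) (BxAt (dk c 0 k) (zc j a1 w)) (Gp c k o e (zc j a1 w) p₀) (Ev w) β
      (hρ w) g1 (hEv w) g2 (fun out _ => hb w out)).trans ?_
    gcongr
    rw [← div_eq_mul_inv, ENNReal.le_div_iff_mul_le (Or.inl hp.ne') (Or.inl hp'), mul_comm]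
    exact g3
  refine (Finset.sum_le_sum hterm).trans ?_
  rw [← Finset.mul_sum, ← Finset.sum_mul, div_eq_mul_inv]
  gcongr
  exact h3 hB c.q c.A j a1 k o e W hA hak

end Pool.Agent.H2.PD
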