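import Pool.Agent.H95.ND.Targets

/-!
Module UPP of the board pd (MP_57ddd5_pr): tails of the upper norms.
-/

open MeasureTheory ProbabilityTheory
open scoped ENNReal

namespace Pool.Agent.H2.PD

open Pool.Agent.H99.NS Pool.Agent.H22.LPP Pool.Agent.H95.INS Pool.Agent.H76.ND
open Pool.Agent.H95.ND
open Pool.Agent.H97.NF (PEnv eA eB PN)

/-- The events of the bound (BA) used for the upper norms. -/
def Ev (q C2 : ℝ) (L : ℕ) (b : Site) (Y : ℝ) : Set Env :=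
  {ω | ∃ u v : Site, b.1 ≤ u.1 ∧ u.1 < v.1 ∧ v.1 ≤ b.1 + L ∧ Reach u v ∧
      (|dx b u| ≤ (L : ℝ) ^ (2 / 3 : ℝ) ∨ |dx b v| ≤ (L : ℝ) ^ (2 / 3 : ℝ)) ∧
      mu q * dt u v - sg q / 2 * dx u v ^ 2 / (dt u v + C2 * L) + Y * (L : ℝ) ^ (1 / 3 : ℝ) ≤
        T ω u v}

theorem cube_rpow_third {y : ℝ} (hy : 0 ≤ y) : (y ^ 3) ^ (1 / 3 : ℝ) = y := by
  rw [← Real.rpow_natCast, ← Real.rpow_mul hy]
  norm_num

theorem cube_rpow_two_thirds {y : ℝ} (hy : 0 ≤ y) : (y ^ 3) ^ (2 / 3 : ℝ) = y ^ 2 := by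
  rw [← Real.rpow_natCast, ← Real.rpow_mul hy]
  norm_num

theorem upp_det {q K0 : ℝ} (hq1 : q < 1) {j i L : ℕ} {s₀ : ℤ} (hK : 1 ≤ K0)
    (hL1 : 64 ^ i ≤ L) (hL2 : L ≤ 32 * 64 ^ i) {ω : Env}
    (h : ¬ UL (fwd ω) q K0 j i s₀ (s₀ + L)) :
    ∃ p : ℤ, ω ∈ Ev q (1 / 40000) L (s₀, p * 16 ^ i)
      (str K0 (ds j i) * (1 + |(p : ℝ)| / 16 ^ ds j i) / 8) := by
  unfold UL at h
  push Not at h
  obtain ⟨s, t, g, hs, hst, ht, hp, hlt⟩ := h
  have hlt' : sp q (64 ^ i / 1000) s t g + al K0 j i (max |(g s : ℝ)| |(g t : ℝ)|) <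
      wt ω s t g := hlt
  have hD0 : (0 : ℝ) ≤ max |(g s : ℝ)| |(g t : ℝ)| := le_max_of_le_left (abs_nonneg _)
  have hal : 0 ≤ al K0 j i (max |(g s : ℝ)| |(g t : ℝ)|) := by
    unfold al
    positivity
  rcases eq_or_lt_of_le hst with rfl | hst'
  · exfalso
    have h1 : wt ω s s g = 0 := by
      unfold wt
      simp
    have h2 : sp q (64 ^ i / 1000) s s g = 0 := by
      unfold sp
      simp
    rw [h1, h2] at hlt'
    linarith
  obtain ⟨u, hu⟩ : ∃ u : Site, u = (s, g s) := ⟨_, rfl⟩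
  obtain ⟨v, hv⟩ : ∃ v : Site, v = (t, g t) := ⟨_, rfl⟩
  have hu1 : u.1 = s := by rw [hu]
  have hu2 : u.2 = g s := by rw [hu]
  have hv1 : v.1 = t := by rw [hv]
  have hv2 : v.2 = g t := by rw [hv]
  have hconn : Conn u v g := ⟨by rw [hu1, hv1]; exact hp, by rw [hu1, hu2], by rw [hv1, hv2]⟩
  have huv : u.1 ≤ v.1 := by rw [hu1, hv1]; exact hst
  have hreach := hconn.reach huv
  have hT := le_T ω huv hconn
  rw [hu1, hv1] at hT
  have hL1' : (64 : ℝ) ^ i ≤ L := by exact_mod_cast hL1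
  have hL2' : (L : ℝ) ≤ 32 * 64 ^ i := by exact_mod_cast hL2
  have h4 : (0 : ℝ) < 4 ^ i := by positivity
  have h43 : ((4 : ℝ) ^ i) ^ 3 = 64 ^ i := by
    rw [← pow_mul, mul_comm, pow_mul]
    norm_num
  have h42 : ((4 : ℝ) ^ i) ^ 2 = 16 ^ i := by
    rw [← pow_mul, mul_comm, pow_mul]
    norm_num
  have hL0 : (0 : ℝ) ≤ L := Nat.cast_nonneg _
  have hr2 : (16 : ℝ) ^ i ≤ (L : ℝ) ^ (2 / 3 : ℝ) := by
    rw [← h42, ← cube_rpow_two_thirds h4.le, h43]
    exact Real.rpow_le_rpow (by positivity) hL1' (by norm_num)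
  have hr1 : (L : ℝ) ^ (1 / 3 : ℝ) ≤ 4 * 4 ^ i := by
    rw [← cube_rpow_third (by positivity : (0:ℝ) ≤ 4 * 4 ^ i)]
    refine Real.rpow_le_rpow hL0 (hL2'.trans ?_) (by norm_num)
    rw [mul_pow, h43]
    have : (0 : ℝ) < 64 ^ i := by positivity
    nlinarith
  obtain ⟨p, hp'⟩ : ∃ p : ℤ, p = g s / 16 ^ i := ⟨_, rfl⟩
  have h16 : (0 : ℤ) < 16 ^ i := by positivity
  have hmod1 : 0 ≤ g s - p * 16 ^ i := by
    rw [hp']
    have := Int.ediv_mul_le (g s) h16.ne'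
    linarith
  have hmod2 : g s - p * 16 ^ i < 16 ^ i := by
    rw [hp']
    have := Int.lt_ediv_add_one_mul_self (g s) h16
    linarith
  have hmod1' : (0 : ℝ) ≤ (g s : ℝ) - p * 16 ^ i := by exact_mod_cast hmod1
  have hmod2' : (g s : ℝ) - p * 16 ^ i < 16 ^ i := by exact_mod_cast hmod2
  refine ⟨p, u, v, ?_, ?_, ?_, hreach, Or.inl ?_, ?_⟩
  · simp only [hu1]; exact hs
  · rw [hu1, hv1]; exact hst'
  · simp only [hv1]; exact ht
  · unfold dx
    rw [hu2]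
    push_cast
    rw [abs_of_nonneg hmod1']
    exact hmod2'.le.trans hr2
  · -- the main inequality
    refine le_trans ?_ hT
    refine le_trans ?_ hlt'.le
    have hdt : dt u v = ((t - s : ℤ) : ℝ) := by unfold dt; rw [hu1, hv1]
    have hdx : dx u v = ((g t - g s : ℤ) : ℝ) := by unfold dx; rw [hu2, hv2]
    have hdt0 : (0 : ℝ) < ((t - s : ℤ) : ℝ) := by
      have : 0 < t - s := by omega
      exact_mod_cast this
    have hsp : mu q * dt u v - sg q / 2 * dx u v ^ 2 / (dt u v + 1 / 40000 * L) ≤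
        sp q (64 ^ i / 1000) s t g := by
      unfold sp
      rw [hdt, hdx]
      have hsg := sg_nonneg hq1
      have hle : sg q / 2 * ((g t - g s : ℤ) : ℝ) ^ 2 / (((t - s : ℤ) : ℝ) + 64 ^ i / 1000) ≤
          sg q / 2 * ((g t - g s : ℤ) : ℝ) ^ 2 / (((t - s : ℤ) : ℝ) + 1 / 40000 * L) := by
        apply div_le_div_of_nonneg_left (by positivity) (by positivity)
        linarith
      linarith
    have hx0 : 0 < str K0 (ds j i) := by
      unfold str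
      positivity
    have hY : str K0 (ds j i) * (1 + |(p : ℝ)| / 16 ^ ds j i) / 8 * (L : ℝ) ^ (1 / 3 : ℝ) ≤
        al K0 j i (max |(g s : ℝ)| |(g t : ℝ)|) := by
      obtain ⟨D, hD⟩ : ∃ D : ℝ, D = max |(g s : ℝ)| |(g t : ℝ)| := ⟨_, rfl⟩
      rw [← hD] at hD0 ⊢
      have hgD : |(g s : ℝ)| ≤ D := by rw [hD]; exact le_max_left _ _
      rw [abs_le] at hgD
      have hpD : |(p : ℝ)| * 16 ^ i ≤ D + 16 ^ i := by
        rw [← abs_of_pos (by positivity : (0:ℝ) < 16 ^ i), ← abs_mul, abs_of_pos (by positivity :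
          (0:ℝ) < 16 ^ i)]
        rw [abs_le]
        constructor <;> linarith [hgD.1, hgD.2]
      have hmax : max j i ≤ ds j i + i := by
        unfold ds
        omega
      have h1 : |(p : ℝ)| / 16 ^ ds j i ≤ D / 16 ^ max j i + 1 := by
        have e1 : |(p : ℝ)| / 16 ^ ds j i = |(p : ℝ)| * 16 ^ i / 16 ^ (ds j i + i) := by
          rw [pow_add]
          field_simp
        rw [e1]
        have e2 : |(p : ℝ)| * 16 ^ i / 16 ^ (ds j i + i) ≤ (D + 16 ^ i) / 16 ^ (ds j i + i) :=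
          div_le_div_of_nonneg_right hpD (by positivity)
        refine e2.trans ?_
        rw [add_div]
        have e3 : D / 16 ^ (ds j i + i) ≤ D / 16 ^ max j i :=
          div_le_div_of_nonneg_left hD0 (by positivity)
            (pow_le_pow_right₀ (by norm_num) hmax)
        have e4 : (16 : ℝ) ^ i / 16 ^ (ds j i + i) ≤ 1 := by
          rw [div_le_one (by positivity)]
          exact pow_le_pow_right₀ (by norm_num) (by omega)
        linarith
      have h2 : 1 + |(p : ℝ)| / 16 ^ ds j i ≤ 2 * (1 + D / 16 ^ max j i) := by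
        have : 0 ≤ D / 16 ^ max j i := by positivity
        linarith
      calc str K0 (ds j i) * (1 + |(p : ℝ)| / 16 ^ ds j i) / 8 * (L : ℝ) ^ (1 / 3 : ℝ)
          ≤ str K0 (ds j i) * (2 * (1 + D / 16 ^ max j i)) / 8 * (4 * 4 ^ i) := by
            gcongr
        _ = al K0 j i D := by
            unfold al str
            ring
    linarith

/-- Summation over the windows. -/
theorem upp_sum {C c C' c' : ℝ} (hC : 0 < C) (hC' : 0 < C') {K0 : ℝ} (n : ℕ)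
    (hW : ∀ N : ℕ, ∑ m ∈ Finset.range N,
      (8 * (m : ℝ) + 1) * Real.exp (-(c / 8 * (str K0 n * (1 + m / 16 ^ n)) ^ (1 : ℝ))) ≤
    C' * Real.exp (-(c' * str K0 n ^ (1 : ℝ))))
    (μ : Measure Env) (S : ℤ → Set Env)
    (hS : ∀ p : ℤ, μ (S p) ≤ ENNReal.ofReal (C * Real.exp (-c * (str K0 n *
      (1 + |(p : ℝ)| / 16 ^ n) / 8)))) :
    μ (⋃ p, S p) ≤ ENNReal.ofReal (2 * C * C' * Real.exp (-(c' * str K0 n ^ (1 : ℝ)))) := by
  have hsub : (⋃ p, S p) ⊆ ⋃ m : ℕ, (S m ∪ S (-m)) := by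
    intro ω hω
    obtain ⟨p, hp⟩ := Set.mem_iUnion.1 hω
    refine Set.mem_iUnion.2 ⟨p.natAbs, ?_⟩
    rcases Int.natAbs_eq p with h | h
    · left; rw [← h]; exact hp
    · right; rw [← h]; exact hp
  have hm : ∀ m : ℕ, μ (S m ∪ S (-m)) ≤ ENNReal.ofReal (2 * C * ((8 * (m : ℝ) + 1) *
      Real.exp (-(c / 8 * (str K0 n * (1 + m / 16 ^ n)) ^ (1 : ℝ))))) := by
    intro m
    have h1 := hS m
    have h2 := hS (-m)
    have e1 : |((m : ℤ) : ℝ)| = m := by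
      rw [Int.cast_natCast]
      exact abs_of_nonneg (Nat.cast_nonneg _)
    have e2 : |((-(m : ℤ) : ℤ) : ℝ)| = m := by
      rw [Int.cast_neg, abs_neg]
      exact e1
    rw [e1] at h1
    rw [e2] at h2
    refine (measure_union_le _ _).trans ((add_le_add h1 h2).trans ?_)
    rw [← ENNReal.ofReal_add (by positivity) (by positivity)]
    apply ENNReal.ofReal_le_ofReal
    rw [Real.rpow_one]
    have e3 : -c * (str K0 n * (1 + (m : ℝ) / 16 ^ n) / 8) =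
        -(c / 8 * (str K0 n * (1 + m / 16 ^ n))) := by ring
    rw [e3]
    have e4 : 0 < Real.exp (-(c / 8 * (str K0 n * (1 + m / 16 ^ n)))) := Real.exp_pos _
    have e5 : 0 ≤ (m : ℝ) := Nat.cast_nonneg _
    nlinarith [mul_pos hC e4, mul_nonneg e5 (mul_pos hC e4).le]
  refine (measure_mono hsub).trans ((measure_iUnion_le _).trans ?_)
  refine (ENNReal.tsum_le_tsum hm).trans ?_
  refine ENNReal.tsum_le_of_sum_range_le fun N => ?_
  rw [← ENNReal.ofReal_sum_of_nonneg (fun m _ => by positivity)]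
  apply ENNReal.ofReal_le_ofReal
  rw [← Finset.mul_sum]
  calc 2 * C * ∑ m ∈ Finset.range N, (8 * (m : ℝ) + 1) *
      Real.exp (-(c / 8 * (str K0 n * (1 + m / 16 ^ n)) ^ (1 : ℝ)))
      ≤ 2 * C * (C' * Real.exp (-(c' * str K0 n ^ (1 : ℝ)))) :=
        mul_le_mul_of_nonneg_left (hW N) (by positivity)
    _ = 2 * C * C' * Real.exp (-(c' * str K0 n ^ (1 : ℝ))) := by ring

theorem pf_UPP (h : T_WSM) : T_UPP := by
  intro hBA q hq0 hq1
  obtain ⟨C, c, hC, hc, hB⟩ := hBA q hq0 hq1 (1 / 40000) (by norm_num)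
  obtain ⟨C', c', hC', hc', hW⟩ := h (c / 8) 1 (by positivity) one_pos
  refine ⟨2 * C * C', c', by positivity, hc', ?_⟩
  intro K0 j i L s₀ hK hL1 hL2
  have hL : 1 ≤ L := le_trans Nat.one_le_two_pow (by
    calc 2 ^ i ≤ 64 ^ i := Nat.pow_le_pow_left (by norm_num) i
      _ ≤ L := hL1)
  have hx0 : 0 < str K0 (ds j i) := by
    unfold str
    positivity
  have hS : ∀ p : ℤ, PE q (Ev q (1 / 40000) L (s₀, p * 16 ^ i)
      (str K0 (ds j i) * (1 + |(p : ℝ)| / 16 ^ ds j i) / 8)) ≤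
      ENNReal.ofReal (C * Real.exp (-c * (str K0 (ds j i) *
      (1 + |(p : ℝ)| / 16 ^ ds j i) / 8))) := by
    intro p
    have h1 := hB L hL (s₀, p * 16 ^ i) (str K0 (ds j i) * (1 + |(p : ℝ)| / 16 ^ ds j i) / 8)
      (by positivity)
    rw [← ENNReal.ofReal_toReal (measure_ne_top (PE q) (Ev q (1 / 40000) L (s₀, p * 16 ^ i)
      (str K0 (ds j i) * (1 + |(p : ℝ)| / 16 ^ ds j i) / 8)))]
    exact ENNReal.ofReal_le_ofReal h1
  have hfin := upp_sum hC hC' (ds j i) (fun N => hW K0 (ds j i) (ds j i) N hK le_rfl) (PE q) _ hS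
  refine (measure_mono ?_).trans hfin
  intro ω hω
  obtain ⟨p, hp⟩ := upp_det hq1 hK hL1 hL2 hω
  exact Set.mem_iUnion.2 ⟨p, hp⟩

end Pool.Agent.H2.PD
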